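import Pool.Agent.W282.ZP.Choice2

/-!
Values of binary forms with integral coefficients in prescribed residue classes, and the pull-back
of a subvariety of `(P¹)^ι` under rational functions of the coordinates (helper file for
Zilber-Pink for pull-backs to semiabelian varieties).
-/

set_option autoImplicit false

open MvPolynomial

namespace Pool.Agent.TH971.SP

open Pool.Agent.W282.ZP

/-- The value of the binary form with coefficients `c 0, …, c m`. -/
def hev {m : ℕ} (c : Fin (m + 1) → ℤ) (X Z : ℂ) : ℂ :=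
  ∑ l : Fin (m + 1), (c l : ℂ) * X ^ (l : ℕ) * Z ^ (m - (l : ℕ))

/-- the congruences -/
def HC {m : ℕ} (p E : ℕ) (x y : ℤ) (c : Fin (m + 1) → ℤ) : Prop :=
  ∀ l : Fin (m + 1), ((p : ℤ) ^ (E + 1)) ∣ c l - tgt x (y * (p : ℤ) ^ E) l

theorem hev_smul {m : ℕ} (c : Fin (m + 1) → ℤ) (t X Z : ℂ) :
    hev c (t * X) (t * Z) = t ^ m * hev c X Z := by
  unfold hev
  rw [Finset.mul_sum]
  refine Finset.sum_congr rfl fun l _ => ?_
  have hl : (l : ℕ) + (m - (l : ℕ)) = m := Nat.add_sub_cancel' (Nat.lt_succ_iff.1 l.2)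
  have h : t ^ m = t ^ (l : ℕ) * t ^ (m - (l : ℕ)) := by rw [← pow_add, hl]
  rw [h]
  ring

theorem int_le (V : ValuationSubring ℂ) (a : ℤ) : V.valuation (a : ℂ) ≤ 1 :=
  (V.valuation_le_one_iff _).2 (intCast_mem V a)

/-- The main estimate. -/
theorem hev_near (V : ValuationSubring ℂ) {p E m : ℕ} (hm : 0 < m)
    (hp : V.valuation (p : ℂ) < 1) (hp0 : p ≠ 0) {x0 y0 : ℤ} {c : Fin (m + 1) → ℤ}
    (hc : HC p E x0 y0 c) (x : ℂ) :
    V.valuation (hev c x 1 - (x0 + y0 * ((p : ℂ) ^ E * x ^ m))) <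
      max 1 (V.valuation ((p : ℂ) ^ E * x ^ m)) := by
  classical
  set v := V.valuation with hv
  have hpv0 : 0 < v (p : ℂ) := zero_lt_iff.2 ((map_ne_zero v).2 (by exact_mod_cast hp0))
  have hmax : (0 : V.ValueGroup) < max 1 (v ((p : ℂ) ^ E * x ^ m)) :=
    lt_of_lt_of_le zero_lt_one (le_max_left _ _)
  have hsum : hev c x 1 - (x0 + y0 * ((p : ℂ) ^ E * x ^ m)) =
      ∑ l : Fin (m + 1), (((c l - tgt x0 (y0 * (p : ℤ) ^ E) l : ℤ)) : ℂ) * x ^ (l : ℕ) := by
    have h0 : ∑ l : Fin (m + 1), ((tgt x0 (y0 * (p : ℤ) ^ E) l : ℤ) : ℂ) * x ^ (l : ℕ) =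
        x0 + y0 * ((p : ℂ) ^ E * x ^ m) := by
      rw [Fin.sum_univ_succ]
      obtain ⟨k, rfl⟩ : ∃ k, m = k + 1 := ⟨m - 1, by omega⟩
      rw [Fin.sum_univ_castSucc]
      have h1 : ∀ i : Fin k, tgt x0 (y0 * (p : ℤ) ^ E) (i.castSucc.succ : Fin (k + 1 + 1)) = 0 := by
        intro i
        have hi := i.2
        simp only [tgt, Fin.val_succ, Fin.val_castSucc]
        rw [if_neg (by omega), if_neg (by omega)]
      rw [Finset.sum_eq_zero fun i _ => by rw [h1 i, Int.cast_zero, zero_mul]]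
      simp only [tgt, Fin.val_zero, if_true, Fin.val_succ, Fin.val_last]
      rw [if_neg (by omega)]
      push_cast
      ring
    rw [← h0, hev, ← Finset.sum_sub_distrib]
    refine Finset.sum_congr rfl fun l _ => ?_
    push_cast
    ring
  rw [hsum]
  refine Valuation.map_sum_lt _ hmax.ne' fun l _ => ?_
  obtain ⟨b, hb⟩ := hc l
  rw [hb]
  have hE : v ((((p : ℤ) ^ (E + 1) * b : ℤ)) : ℂ) ≤ v (p : ℂ) * v (p : ℂ) ^ E := by
    push_cast
    rw [map_mul, map_pow, pow_succ']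
    exact mul_le_of_le_one_right' (int_le V b)
  have hpE : v (p : ℂ) ^ E ≤ 1 := pow_le_one₀ zero_le hp.le
  have hkey : v (p : ℂ) ^ E * v x ^ (l : ℕ) ≤ max 1 (v ((p : ℂ) ^ E * x ^ m)) := by
    rcases le_total (v x) 1 with h | h
    · refine le_trans ?_ (le_max_left _ _)
      exact mul_le_one₀ hpE zero_le (pow_le_one₀ zero_le h)
    · refine le_trans ?_ (le_max_right _ _)
      rw [map_mul, map_pow, map_pow]
      exact mul_le_mul_right (pow_le_pow_right₀ h (Nat.lt_succ_iff.1 l.2)) _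
  rw [map_mul, map_pow]
  calc v ((((p : ℤ) ^ (E + 1) * b : ℤ)) : ℂ) * v x ^ (l : ℕ)
      ≤ v (p : ℂ) * v (p : ℂ) ^ E * v x ^ (l : ℕ) := mul_le_mul_left hE _
    _ = v (p : ℂ) * (v (p : ℂ) ^ E * v x ^ (l : ℕ)) := by rw [mul_assoc]
    _ ≤ v (p : ℂ) * max 1 (v ((p : ℂ) ^ E * x ^ m)) := mul_le_mul_right hkey _
    _ < 1 * max 1 (v ((p : ℂ) ^ E * x ^ m)) := by
        exact mul_lt_mul_of_pos_right hp hmax
    _ = _ := one_mul _

/-- The value at infinity. -/
theorem hev_inf (V : ValuationSubring ℂ) {p E m : ℕ} (hm : 0 < m)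
    (hp : V.valuation (p : ℂ) < 1) (hp0 : p ≠ 0) {x0 y0 : ℤ} {c : Fin (m + 1) → ℤ}
    (hc : HC p E x0 y0 c) :
    V.valuation (hev c 1 0 / (p : ℂ) ^ E - y0) < 1 := by
  set v := V.valuation with hv
  have hpC : (p : ℂ) ≠ 0 := by exact_mod_cast hp0
  have h1 : hev c 1 0 = c (Fin.last m) := by
    unfold hev
    rw [Fin.sum_univ_castSucc]
    rw [Finset.sum_eq_zero fun i _ => ?_]
    · simp
    · have hi := i.2
      rw [Fin.val_castSucc, zero_pow (by omega), mul_zero]
  obtain ⟨b, hb⟩ := hc (Fin.last m)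
  have h2 : tgt x0 (y0 * (p : ℤ) ^ E) (Fin.last m) = y0 * (p : ℤ) ^ E := by
    simp only [tgt, Fin.val_last]
    rw [if_neg hm.ne', if_true]
  rw [h2] at hb
  have h3 : (c (Fin.last m) : ℂ) = (p : ℂ) ^ E * (y0 + p * b) := by
    have h4 : c (Fin.last m) = (p : ℤ) ^ E * (y0 + p * b) := by linear_combination hb
    rw [h4]
    push_cast
    ring
  rw [h1, h3, mul_div_cancel_left₀ _ (pow_ne_zero _ hpC), add_sub_cancel_left, map_mul]
  exact (mul_le_of_le_one_right' (int_le V b)).trans_lt hp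

/-- the normalized homogeneous coordinates of a point of the projective line -/
def Nrm (h : ℂ × ℂ) : Prop := h.2 = 1 ∨ h = (1, 0)

/-- The dichotomy at one coordinate. -/
theorem dich (V : ValuationSubring ℂ) {p E m : ℕ} (hm : 0 < m)
    (hp : V.valuation (p : ℂ) < 1) (hp0 : p ≠ 0) {α β : ℤ} {cn cd : Fin (m + 1) → ℤ}
    (hn : HC p E α β cn) (hd : HC p E 1 1 cd) (h : ℂ × ℂ) (hh : Nrm h) :
    (h.2 = 1 ∧ V.valuation h.1 ^ m * V.valuation (p : ℂ) ^ E = 1) ∨
    (hev cd h.1 h.2 ≠ 0 ∧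
      (V.valuation (hev cn h.1 h.2 / hev cd h.1 h.2 - (α : ℂ)) < 1 ∨
       V.valuation (hev cn h.1 h.2 / hev cd h.1 h.2 - (β : ℂ)) < 1)) := by
  set v := V.valuation with hv
  have hpC : (p : ℂ) ≠ 0 := by exact_mod_cast hp0
  rcases hh with hh | rfl
  · rw [hh]
    set x := h.1 with hx
    set t : ℂ := (p : ℂ) ^ E * x ^ m with ht
    have hvt : v t = v x ^ m * v (p : ℂ) ^ E := by rw [ht, map_mul, map_pow, map_pow, mul_comm]
    have hN := hev_near V hm hp hp0 hn x
    have hD := hev_near V hm hp hp0 hd x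
    rw [← hv, ← ht] at hN hD
    rcases lt_trichotomy (v t) 1 with h1 | h1 | h1
    · right
      rw [max_eq_left h1.le] at hN hD
      have h2 : ∀ b : ℤ, v ((b : ℂ) * t) < 1 := fun b => by
        rw [map_mul]
        exact (mul_le_of_le_one_left' (int_le V b)).trans_lt h1
      have h3 : v (hev cn x 1 - α) < 1 := by
        have e : hev cn x 1 - α = (hev cn x 1 - (α + β * t)) + β * t := by ring
        rw [e]
        exact (v.map_add _ _).trans_lt (max_lt hN (h2 β))
      have h4 : v (hev cd x 1 - 1) < 1 := by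
        have e : hev cd x 1 - 1 = (hev cd x 1 - (((1 : ℤ) : ℂ) + ((1 : ℤ) : ℂ) * t)) +
            ((1 : ℤ) : ℂ) * t := by push_cast; ring
        rw [e]
        exact (v.map_add _ _).trans_lt (max_lt hD (h2 1))
      obtain ⟨h5, h6⟩ := val_div_sub_lt V (hev cn x 1) (hev cd x 1) (α : ℂ) (int_le V α) h3 h4
      exact ⟨h5, Or.inl h6⟩
    · left
      exact ⟨rfl, by rw [← hvt, h1]⟩
    · right
      rw [max_eq_right h1.le] at hN hD
      have ht0 : t ≠ 0 := by
        rintro h0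
        rw [h0, map_zero] at h1
        exact absurd h1 (not_lt.2 zero_le_one)
      have hvt0 : 0 < v t := zero_lt_one.trans h1
      have h2 : ∀ b : ℤ, v (b : ℂ) < v t := fun b => (int_le V b).trans_lt h1
      have hdiv : ∀ N y : ℂ, v (N - y * t) < v t → v (N / t - y) < 1 := by
        intro N y h3
        have e : N / t - y = (N - y * t) / t := by field_simp
        rw [e, map_div₀]
        exact (div_lt_one₀ hvt0).2 h3
      have h3 : v (hev cn x 1 - β * t) < v t := by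
        have e : hev cn x 1 - β * t = (hev cn x 1 - (α + β * t)) + α := by ring
        rw [e]
        exact (v.map_add _ _).trans_lt (max_lt hN (h2 α))
      have h4 : v (hev cd x 1 - 1 * t) < v t := by
        have e : hev cd x 1 - 1 * t = (hev cd x 1 - (((1 : ℤ) : ℂ) + ((1 : ℤ) : ℂ) * t)) +
            ((1 : ℤ) : ℂ) := by push_cast; ring
        rw [e]
        exact (v.map_add _ _).trans_lt (max_lt hD (h2 1))
      obtain ⟨h5, h6⟩ := val_div_sub_lt V (hev cn x 1 / t) (hev cd x 1 / t) (β : ℂ) (int_le V β)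
        (hdiv _ _ h3) (hdiv _ _ h4)
      rw [div_div_div_cancel_right₀ ht0] at h6
      refine ⟨?_, Or.inr h6⟩
      intro h7
      rw [h7, zero_div] at h5
      exact h5 rfl
  · right
    have hN := hev_inf V hm hp hp0 hn
    have hD := hev_inf V hm hp hp0 hd
    rw [Int.cast_one] at hD
    obtain ⟨h5, h6⟩ := val_div_sub_lt V _ _ (β : ℂ) (int_le V β) hN hD
    have hpE : (p : ℂ) ^ E ≠ 0 := pow_ne_zero _ hpC
    rw [div_div_div_cancel_right₀ hpE] at h6
    refine ⟨?_, Or.inr h6⟩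
    intro h7
    rw [h7, zero_div] at h5
    exact h5 rfl

/-- Numerator and denominator have no common zero. -/
theorem no_common (V : ValuationSubring ℂ) {p E m : ℕ} (hm : 0 < m)
    (hp : V.valuation (p : ℂ) < 1) (hp0 : p ≠ 0) {α β : ℤ} {cn cd : Fin (m + 1) → ℤ}
    (hαβ : V.valuation ((α - β : ℤ) : ℂ) = 1)
    (hn : HC p E α β cn) (hd : HC p E 1 1 cd) (X Z : ℂ) (hXZ : (X, Z) ≠ (0, 0)) :
    hev cn X Z ≠ 0 ∨ hev cd X Z ≠ 0 := by
  by_contra hcon
  push Not at hcon
  obtain ⟨h1, h2⟩ := hcon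
  set v := V.valuation with hv
  by_cases hZ : Z = 0
  · have hX : X ≠ 0 := by
      rintro rfl
      exact hXZ (by rw [hZ])
    have e : hev cd X Z = X ^ m * hev cd 1 0 := by
      rw [← hev_smul, mul_one, mul_zero, hZ]
    rw [e] at h2
    have h3 := (mul_eq_zero.1 h2).resolve_left (pow_ne_zero _ hX)
    have h4 := hev_inf V hm hp hp0 hd
    rw [h3, zero_div, zero_sub, Valuation.map_neg, Int.cast_one, map_one] at h4
    exact lt_irrefl _ h4
  · have e : ∀ c : Fin (m + 1) → ℤ, hev c X Z = Z ^ m * hev c (X / Z) 1 := by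
      intro c
      rw [← hev_smul, mul_one, mul_div_cancel₀ _ hZ]
    rw [e] at h1 h2
    have h3 := (mul_eq_zero.1 h1).resolve_left (pow_ne_zero _ hZ)
    have h4 := (mul_eq_zero.1 h2).resolve_left (pow_ne_zero _ hZ)
    rcases dich V hm hp hp0 hn hd (X / Z, 1) (Or.inl rfl) with h5 | h5
    · have hN := hev_near V hm hp hp0 hn (X / Z)
      have hD := hev_near V hm hp hp0 hd (X / Z)
      have ht : v ((p : ℂ) ^ E * (X / Z) ^ m) = 1 := by
        rw [map_mul, map_pow, map_pow, mul_comm]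
        exact h5.2
      rw [← hv, ht, max_self, h3, zero_sub, Valuation.map_neg] at hN
      rw [← hv, ht, max_self, h4, zero_sub, Valuation.map_neg] at hD
      have h6 : v ((α + β * ((p : ℂ) ^ E * (X / Z) ^ m)) - β * (((1 : ℤ) : ℂ) +
          ((1 : ℤ) : ℂ) * ((p : ℂ) ^ E * (X / Z) ^ m))) < 1 := by
        refine lt_of_le_of_lt (Valuation.map_sub _ _ _) (max_lt hN ?_)
        rw [map_mul]
        exact (mul_le_of_le_one_left' (int_le V β)).trans_lt hD
      have h7 : (α + β * ((p : ℂ) ^ E * (X / Z) ^ m)) - β * (((1 : ℤ) : ℂ) +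
          ((1 : ℤ) : ℂ) * ((p : ℂ) ^ E * (X / Z) ^ m)) = ((α - β : ℤ) : ℂ) := by
        push_cast
        ring
      rw [h7, hαβ] at h6
      exact lt_irrefl _ h6
    · exact h5.1 h4

section pull

variable {ι : Type} [Fintype ι] {D : ι → ℕ}

/-- The value of the multihomogenization of `f` at the values of the numerators and denominators at
the point with homogeneous coordinates `h i`. -/
noncomputable def homValue (c : Idx D → ℤ) (f : MvPolynomial ι ℂ) (h : ι → ℂ × ℂ) : ℂ :=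
  ∑ k ∈ f.support, f.coeff k * ∏ i, (hev (fun l => c ⟨i, 0, l⟩) (h i).1 (h i).2 ^ (k i) *
    hev (fun l => c ⟨i, 1, l⟩) (h i).1 (h i).2 ^ (f.degreeOf i - k i))

theorem homValue_eq (c : Idx D → ℤ) (f : MvPolynomial ι ℂ) (h : ι → ℂ × ℂ)
    (hd : ∀ i, f.degreeOf i ≠ 0 → hev (fun l => c ⟨i, 1, l⟩) (h i).1 (h i).2 ≠ 0) :
    homValue c f h = (∏ i, hev (fun l => c ⟨i, 1, l⟩) (h i).1 (h i).2 ^ f.degreeOf i) *
      eval (fun i => hev (fun l => c ⟨i, 0, l⟩) (h i).1 (h i).2 /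
        hev (fun l => c ⟨i, 1, l⟩) (h i).1 (h i).2) f := by
  classical
  rw [homValue, eval_eq', Finset.mul_sum]
  refine Finset.sum_congr rfl fun k hk => ?_
  rw [mul_left_comm]
  congr 1
  rw [← Finset.prod_mul_distrib]
  refine Finset.prod_congr rfl fun i _ => ?_
  have hki : k i ≤ f.degreeOf i := monomial_le_degreeOf i hk
  by_cases h0 : f.degreeOf i = 0
  · have h1 : k i = 0 := by omega
    rw [h0, h1]
    simp
  · have h1 := hd i h0
    rw [div_pow, ← mul_div_assoc, eq_div_iff (pow_ne_zero _ h1), mul_assoc, ← pow_add,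
      Nat.sub_add_cancel hki, mul_comm]

/-- One prime: at most `d` coordinates are atypical. -/
theorem card_at (hD : ∀ i, 0 < D i) {d : ℕ} (V : ValuationSubring ℂ) {p : ℕ}
    (hp : V.valuation (p : ℂ) < 1) (hp0 : p ≠ 0)
    (f : ∀ J : Finset ι, MvPolynomial J ℂ) (α β : ι → ℤ)
    (hf : ∀ J : Finset ι, J.card = d + 1 → ∀ k, V.valuation ((f J).coeff k) ≤ 1)
    (hcor : ∀ J : Finset ι, J.card = d + 1 → ∀ c : ι → Bool, V.valuation
      (MvPolynomial.eval (fun i : J => (((if c i then α i else β i : ℤ)) : ℂ)) (f J)) = 1)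
    (E : ι → ℕ) (c : Idx D → ℤ) (hc : ∀ i, HC p (E i) (α i) (β i) (fun l => c ⟨i, 0, l⟩) ∧
      HC p (E i) 1 1 (fun l => c ⟨i, 1, l⟩))
    (h : ι → ℂ × ℂ) (hh : ∀ i, Nrm (h i))
    (hz : ∀ J : Finset ι, J.card = d + 1 →
      homValue c (rename (Subtype.val : J → ι) (f J)) h = 0) (A : Finset ι)
    (hA : ∀ i ∈ A, ¬ ((h i).2 = 1 ∧ V.valuation (h i).1 ^ D i * V.valuation (p : ℂ) ^ E i = 1)) :
    A.card ≤ d := by
  classical
  by_contra hcon
  push Not at hcon
  obtain ⟨J, hJA, hJ⟩ := Finset.exists_subset_card_eq (Nat.succ_le_of_lt hcon)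
  set x : ι → ℂ := fun i => hev (fun l => c ⟨i, 0, l⟩) (h i).1 (h i).2 /
    hev (fun l => c ⟨i, 1, l⟩) (h i).1 (h i).2 with hx
  have hty : ∀ i ∈ J, hev (fun l => c ⟨i, 1, l⟩) (h i).1 (h i).2 ≠ 0 ∧
      (V.valuation (x i - (α i : ℂ)) < 1 ∨ V.valuation (x i - (β i : ℂ)) < 1) := by
    intro i hi
    rcases dich V (hD i) hp hp0 (hc i).1 (hc i).2 (h i) (hh i) with h5 | h5
    · exact absurd h5 (hA i (hJA hi))
    · exact h5
  let b : ι → Bool := fun i => decide (V.valuation (x i - (α i : ℂ)) < 1)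
  have hb : ∀ i ∈ J, V.valuation (x i - (((if b i then α i else β i : ℤ)) : ℂ)) < 1 := by
    intro i hi
    by_cases h1 : V.valuation (x i - (α i : ℂ)) < 1
    · simp [b, h1]
    · have h2 := (hty i hi).2.resolve_left h1
      simpa [b, h1] using h2
  have hdeg : ∀ i, (rename (Subtype.val : J → ι) (f J)).degreeOf i ≠ 0 → i ∈ J := by
    intro i hi
    by_contra hiJ
    apply hi
    rw [← Nat.le_zero, degreeOf_le_iff]
    intro k hk
    obtain ⟨k', rfl, -⟩ := coeff_rename_ne_zero _ _ _ (mem_support_iff.1 hk)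
    rw [Finsupp.mapDomain_of_notMem_range]
    rintro ⟨j, rfl⟩
    exact hiJ j.2
  have h1 := hz J hJ
  rw [homValue_eq c _ h (fun i hi => (hty i (hdeg i hi)).1)] at h1
  have h2 := (mul_eq_zero.1 h1).resolve_left (Finset.prod_ne_zero_iff.2 fun i _ => by
    by_cases hi : (rename (Subtype.val : J → ι) (f J)).degreeOf i = 0
    · rw [hi, pow_zero]
      exact one_ne_zero
    · exact pow_ne_zero _ (hty i (hdeg i hi)).1)
  rw [eval_rename] at h2
  have h3 := val_aeval_sub_lt V (f J) (fun k => hf J hJ k) (fun i : J => x i)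
    (fun i : J => (((if b i then α i else β i : ℤ)) : ℂ)) (fun i => hb i i.2)
    (fun i => int_le V _)
  have h2' : aeval (fun i : J => x i) (f J) = 0 := by
    rw [aeval_eq_eval]
    exact h2
  rw [h2', zero_sub, Valuation.map_neg, aeval_eq_eval, hcor J hJ b] at h3
  exact lt_irrefl _ h3

end pull

end Pool.Agent.TH971.SP
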