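import Pool.Agent.TH971.RF.C1
import Mathlib.SetTheory.Cardinal.Subfield

/-!
Archimedean valuation rings of `ℂ` with prescribed values at algebraically independent numbers, in
which given constants are units (helper file for Zilber-Pink for pull-backs to semiabelian
varieties).
-/

set_option autoImplicit false

open MvPolynomial

namespace Pool.Agent.TH971.SP

open Pool.Agent.W466.ZP Pool.Agent.W466.ZC Pool.Agent.W282.RW Pool.Agent.W466.EP

/-- A valuation ring over `p` with the Gauss valuation on `ℤ[τ]`, which is archimedean. -/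
structure Good {κ : Type*} (τ : κ → ℂ) (p : ℕ) (V : ValuationSubring ℂ) : Prop where
  hp : (p : ℂ) ∈ V.nonunits
  mem : ∀ i, τ i ∈ V
  gauss : ∀ f : MvPolynomial κ ℤ, ¬ (C (p : ℤ) ∣ f) → V.valuation (aeval τ f) = 1
  arch : ∀ z : ℂ, ∃ M : ℕ, V.valuation z * V.valuation (p : ℂ) ^ M ≤ 1

theorem Good.lt {κ : Type*} {τ : κ → ℂ} {p : ℕ} {V : ValuationSubring ℂ} (h : Good τ p V) :
    V.valuation (p : ℂ) < 1 := (V.mem_nonunits_iff).1 h.hp

/-- passing to a subfamily -/
theorem gauss_comp {κ μ : Type*} {V : ValuationSubring ℂ} {p : ℕ} {y : μ → ℂ} {τ : κ → ℂ}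
    (g : κ → μ) (hg : Function.Injective g) (hy : ∀ i, y (g i) = τ i)
    (h : ∀ f : MvPolynomial μ ℤ, ¬ (C (p : ℤ) ∣ f) → V.valuation (aeval y f) = 1)
    (f : MvPolynomial κ ℤ) (hf : ¬ (C (p : ℤ) ∣ f)) : V.valuation (aeval τ f) = 1 := by
  have h1 : aeval τ f = aeval y (rename g f) := by
    rw [aeval_rename]
    congr 2
    funext i
    exact (hy i).symm
  rw [h1]
  refine h _ fun h2 => hf ?_
  rw [C_dvd_iff_dvd_coeff] at h2 ⊢
  intro m
  have h3 := h2 (m.mapDomain g)
  rwa [coeff_rename_mapDomain g hg] at h3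

theorem exists_good {κ : Type*} (y : κ → ℂ) (hy : AlgebraicIndependent ℚ y) {p : ℕ}
    (hp : p.Prime) : ∃ V : ValuationSubring ℂ, Good y p V := by
  classical
  have hyZ : AlgebraicIndependent ℤ y := hy.restrictScalars (Int.cast_injective (α := ℚ))
  have hr : AlgebraicIndepOn ℤ id (Set.range y) := hyZ.coe_range
  obtain ⟨s, hys, hs⟩ := exists_isTranscendenceBasis_superset hr
  have : Algebra.IsAlgebraic ℤ ℚ := IsLocalization.isAlgebraic ℚ (nonZeroDivisors ℤ)
  have hsQ : AlgebraicIndependent ℚ ((↑) : s → ℂ) := hs.1.extendScalars ℚ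
  have halg : Algebra.IsAlgebraic (Algebra.adjoin ℤ (Set.range ((↑) : s → ℂ))) ℂ := hs.isAlgebraic
  obtain ⟨V, hV1, hV2, hV3⟩ := Pool.Agent.W466.ZP.exists_gauss ((↑) : s → ℂ) hsQ hp
  set v := V.valuation with hv
  have hval : ∀ (N : ℕ) (f : MvPolynomial s ℤ) (m : s →₀ ℕ), (f.coeff m).natAbs ≤ N →
      f.coeff m ≠ 0 → ∃ k : ℕ, v (aeval ((↑) : s → ℂ) f) = v (p : ℂ) ^ k := by
    intro N
    induction N with
    | zero =>
      intro f m h1 h2
      exact absurd (Int.natAbs_eq_zero.1 (Nat.le_zero.1 h1)) h2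
    | succ N ih =>
      intro f m h1 h2
      by_cases hd : C (p : ℤ) ∣ f
      · obtain ⟨f', rfl⟩ := hd
        have h3 : (C (p : ℤ) * f').coeff m = p * f'.coeff m := by rw [coeff_C_mul]
        rw [h3] at h1 h2
        have h4 : f'.coeff m ≠ 0 := right_ne_zero_of_mul h2
        have h5 : (f'.coeff m).natAbs ≤ N := by
          rw [Int.natAbs_mul, Int.natAbs_natCast] at h1
          have h6 := Int.natAbs_pos.2 h4
          have h7 : 2 * (f'.coeff m).natAbs ≤ p * (f'.coeff m).natAbs :=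
            Nat.mul_le_mul_right _ hp.two_le
          omega
        obtain ⟨k, hk⟩ := ih f' m h5 h4
        refine ⟨k + 1, ?_⟩
        rw [map_mul, aeval_C, map_mul, hk, pow_succ']
        simp
      · exact ⟨0, by rw [pow_zero]; exact hV3 f hd⟩
  refine ⟨V, hV1, fun i => hV2 ⟨y i, hys ⟨i, rfl⟩⟩, ?_, fun z => ?_⟩
  · refine gauss_comp (y := ((↑) : s → ℂ)) (fun i => ⟨y i, hys ⟨i, rfl⟩⟩) ?_ (fun i => rfl) hV3
    intro i j hij
    exact hyZ.injective (congrArg Subtype.val hij)
  obtain ⟨a, ha, hint⟩ := (halg.1 z).exists_integral_multiple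
  have h2 : (a : ℂ) ∈ (aeval ((↑) : s → ℂ) : MvPolynomial s ℤ →ₐ[ℤ] ℂ).range := by
    rw [← Algebra.adjoin_range_eq_range_aeval]
    exact a.2
  obtain ⟨f, hf⟩ := h2
  have hf0 : f ≠ 0 := by
    rintro rfl
    apply ha
    apply Subtype.ext
    rw [← hf]
    simp
  obtain ⟨m, hm⟩ : ∃ m, f.coeff m ≠ 0 := by
    by_contra h
    push Not at h
    exact hf0 (MvPolynomial.ext _ _ fun m => by rw [h m, coeff_zero])
  obtain ⟨k, hk⟩ := hval _ f m le_rfl hm
  refine ⟨k, ?_⟩
  have h4 : (a : ℂ) * z ∈ V := by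
    refine mem_of_integral V ?_ hint
    intro z hz
    have hle : Algebra.adjoin ℤ (Set.range ((↑) : s → ℂ)) ≤ subalgebraOfSubring V.toSubring := by
      refine Algebra.adjoin_le ?_
      rintro _ ⟨x, rfl⟩
      exact hV2 x
    exact hle hz
  have h5 : (a : ℂ) = aeval ((↑) : s → ℂ) f := hf.symm
  rw [h5, ← ValuationSubring.valuation_le_one_iff, map_mul, ← hv, hk, mul_comm] at h4
  exact h4

/-- The valuation rings with prescribed values. -/
theorem exists_place {κ ι' : Type} (τ : κ → ℂ) (x : ι' → ℂ)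
    (h : AlgebraicIndependent ℚ (Sum.elim x τ)) {p : ℕ} (hp : p.Prime) (R F : ι' → ℕ)
    (hR : ∀ i, 0 < R i) :
    ∃ V : ValuationSubring ℂ, Good τ p V ∧
      ∀ i, V.valuation (x i) ^ R i * V.valuation (p : ℂ) ^ F i = 1 := by
  classical
  have hpQ : (p : ℚ) ≠ 0 := by exact_mod_cast hp.ne_zero
  let g : ι' ⊕ κ → Polynomial ℚ :=
    Sum.elim (fun i => Polynomial.C ((p : ℚ) ^ F i) * Polynomial.X ^ R i)
      (fun _ => Polynomial.X)
  have hg : ∀ i, Transcendental ℚ (g i) := by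
    rintro (i | j)
    · refine Polynomial.transcendental _ ?_ ?_
      · change (Polynomial.C ((p : ℚ) ^ F i) * Polynomial.X ^ R i).natDegree ≠ 0
        rw [Polynomial.natDegree_C_mul_X_pow _ _ (pow_ne_zero _ hpQ)]
        exact (hR i).ne'
      · exact mem_nonZeroDivisors_of_ne_zero (by
          change (Polynomial.C ((p : ℚ) ^ F i) * Polynomial.X ^ R i).leadingCoeff ≠ 0
          rw [Polynomial.leadingCoeff_C_mul_X_pow]
          exact pow_ne_zero _ hpQ)
    · exact Polynomial.transcendental_X ℚ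
  have h1 := h.polynomial_aeval_of_transcendental hg
  obtain ⟨V, hV⟩ := exists_good _ h1 hp
  refine ⟨V, ⟨hV.hp, ?_, ?_, hV.arch⟩, ?_⟩
  · intro i
    have h2 := hV.mem (Sum.inr i)
    simpa [g] using h2
  · refine gauss_comp (Sum.inr) Sum.inr_injective ?_ hV.gauss
    intro i
    simp [g]
  · intro i
    have h2 := hV.gauss (X (Sum.inl i)) (by
      rw [C_dvd_iff_dvd_coeff]
      intro h3
      have h4 := h3 (Finsupp.single (Sum.inl i) 1)
      rw [coeff_X, if_pos rfl] at h4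
      have h5 : (p : ℤ) ∣ 1 := h4
      have h6 : p ∣ 1 := by exact_mod_cast h5
      exact hp.one_lt.ne' (Nat.dvd_one.1 h6))
    rw [aeval_X] at h2
    simp only [Sum.elim_inl, g, map_mul, map_pow, Polynomial.aeval_X,
      map_natCast] at h2
    rw [mul_comm]
    exact h2

/-- A constant which is algebraic over `ℤ[τ]` is integral at almost all primes. -/
theorem const_le {κ : Type*} {τ : κ → ℂ} (u : ℂ)
    (hu : IsAlgebraic (Algebra.adjoin ℤ (Set.range τ)) u) :
    ∃ D : ℕ, 0 < D ∧ ∀ p : ℕ, ¬ p ∣ D → ∀ V : ValuationSubring ℂ, Good τ p V →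
      V.valuation u ≤ 1 := by
  obtain ⟨a, ha, hint⟩ := hu.exists_integral_multiple
  have h2 : (a : ℂ) ∈ (aeval τ : MvPolynomial κ ℤ →ₐ[ℤ] ℂ).range := by
    rw [← Algebra.adjoin_range_eq_range_aeval]
    exact a.2
  obtain ⟨f, hf⟩ := h2
  have hf0 : f ≠ 0 := by
    rintro rfl
    apply ha
    apply Subtype.ext
    rw [← hf]
    simp
  obtain ⟨m, hm⟩ : ∃ m, f.coeff m ≠ 0 := by
    by_contra h
    push Not at h
    exact hf0 (MvPolynomial.ext _ _ fun m => by rw [h m, coeff_zero])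
  refine ⟨(f.coeff m).natAbs, Int.natAbs_pos.2 hm, fun p hp V hV => ?_⟩
  have h3 : V.valuation (aeval τ f) = 1 := by
    refine hV.gauss f fun h => hp ?_
    rw [C_dvd_iff_dvd_coeff] at h
    exact Int.natCast_dvd.1 (h m)
  have h4 : (a : ℂ) * u ∈ V := by
    refine mem_of_integral V ?_ hint
    intro z hz
    have hle : Algebra.adjoin ℤ (Set.range τ) ≤ subalgebraOfSubring V.toSubring := by
      refine Algebra.adjoin_le ?_
      rintro _ ⟨x, rfl⟩
      exact hV.mem x
    exact hle hz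
  have h5 : (a : ℂ) = aeval τ f := hf.symm
  rwa [h5, ← ValuationSubring.valuation_le_one_iff, map_mul, h3, one_mul] at h4

/-- Finitely many constants which are algebraic over `ℤ[τ]` are integral, and units if they are not
zero, at almost all primes. -/
theorem const_unit {κ : Type*} {τ : κ → ℂ} (s : Finset ℂ)
    (hs : ∀ u ∈ s, IsAlgebraic (Algebra.adjoin ℤ (Set.range τ)) u) :
    ∃ D : ℕ, 0 < D ∧ ∀ p : ℕ, ¬ p ∣ D → ∀ V : ValuationSubring ℂ, Good τ p V →
      ∀ u ∈ s, u ≠ 0 → V.valuation u = 1 := by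
  classical
  have h1 : ∀ u : ℂ, ∃ D : ℕ, 0 < D ∧ (u ∈ s → ∀ p : ℕ, ¬ p ∣ D → ∀ V : ValuationSubring ℂ,
      Good τ p V → u ≠ 0 → V.valuation u = 1) := by
    intro u
    by_cases hu : u ∈ s
    · obtain ⟨D, hD, h⟩ := const_le u (hs u hu)
      obtain ⟨D', hD', h'⟩ := const_le u⁻¹ (hs u hu).inv
      refine ⟨D * D', Nat.mul_pos hD hD', fun _ p hp V hV hu0 => ?_⟩
      have h2 := h p (fun h3 => hp (h3.mul_right _)) V hV
      have h3 := h' p (fun h3 => hp (h3.mul_left _)) V hV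
      refine le_antisymm h2 ?_
      rw [map_inv₀] at h3
      have h4 : 0 < V.valuation u := zero_lt_iff.2 ((map_ne_zero _).2 hu0)
      exact (inv_le_one₀ h4).1 h3
    · exact ⟨1, one_pos, fun h => absurd h hu⟩
  choose D hD h using h1
  refine ⟨∏ u ∈ s, D u, Finset.prod_pos fun u _ => hD u, fun p hp V hV u hu hu0 => ?_⟩
  exact h u hu p (fun h3 => hp (h3.trans (Finset.dvd_prod_of_mem D hu))) V hV hu0

/-- A transcendence basis for finitely many numbers. -/
theorem exists_tau (s : Finset ℂ) : ∃ t : Finset ℂ, AlgebraicIndependent ℚ ((↑) : t → ℂ) ∧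
    ∀ u ∈ s, IsAlgebraic (Algebra.adjoin ℤ (Set.range ((↑) : t → ℂ))) u := by
  classical
  have : Algebra.IsAlgebraic ℤ ℚ := IsLocalization.isAlgebraic ℚ (nonZeroDivisors ℤ)
  suffices h : ∃ t : Finset ℂ, AlgebraicIndepOn ℤ id (t : Set ℂ) ∧
      ∀ u ∈ s, IsAlgebraic (Algebra.adjoin ℤ (t : Set ℂ)) u by
    obtain ⟨t, h1, h2⟩ := h
    refine ⟨t, ?_, fun u hu => ?_⟩
    · have h3 : AlgebraicIndependent ℤ ((↑) : t → ℂ) := h1
      exact h3.extendScalars ℚ
    · have h3 : Set.range ((↑) : t → ℂ) = (t : Set ℂ) := Subtype.range_coe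
      rw [h3]
      exact h2 u hu
  induction s using Finset.induction_on with
  | empty =>
    refine ⟨∅, ?_, fun u hu => absurd hu (Finset.notMem_empty u)⟩
    rw [Finset.coe_empty]
    exact (algebraicIndependent_empty_type_iff).2 (Int.cast_injective (α := ℂ))
  | insert a s ha ih =>
    obtain ⟨t, h1, h2⟩ := ih
    by_cases hat : IsAlgebraic (Algebra.adjoin ℤ (t : Set ℂ)) a
    · refine ⟨t, h1, fun u hu => ?_⟩
      rcases Finset.mem_insert.1 hu with rfl | hu
      · exact hat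
      · exact h2 u hu
    · refine ⟨insert a t, ?_, fun u hu => ?_⟩
      · rw [Finset.coe_insert]
        refine h1.insert ?_
        rw [Set.image_id]
        exact hat
      · have hle : Algebra.adjoin ℤ (t : Set ℂ) ≤ Algebra.adjoin ℤ ((insert a t : Finset ℂ) : Set ℂ) :=
          Algebra.adjoin_mono (by rw [Finset.coe_insert]; exact Set.subset_insert _ _)
        rcases Finset.mem_insert.1 hu with rfl | hu
        · exact isAlgebraic_algebraMap (⟨u, Algebra.subset_adjoin (by simp)⟩ :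
            Algebra.adjoin ℤ ((insert u t : Finset ℂ) : Set ℂ))
        · exact (h2 u hu).tower_top_of_subalgebra_le hle

end Pool.Agent.TH971.SP
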