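import Pool.Agent.TH971.SP.A1
import Pool.Agent.W282.ZP.Rat

/-!
Random forms in several pairs of variables: at one place most of the components of the map have
prescribed reductions, unless many coordinates have prescribed values (helper file for
Zilber-Pink for pull-backs under rational maps to semiabelian varieties).
-/

set_option autoImplicit false

open MvPolynomial

namespace Pool.Agent.TH971.SP

open Pool.Agent.W282.ZP

variable {ι : Type} [Fintype ι] [DecidableEq ι] {D : ι → ℕ}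

/-- The value of the form of multidegree `D` with coefficients `c` at the point with homogeneous
coordinates `h i`. -/
def mev (c : ((i : ι) → Fin (D i + 1)) → ℤ) (h : ι → ℂ × ℂ) : ℂ :=
  ∑ e, (c e : ℂ) * ∏ i, ((h i).1 ^ (e i : ℕ) * (h i).2 ^ (D i - (e i : ℕ)))

/-- The coefficients of `∏_i (Z_i ^ D_i + b p ^ ω_i X_i ^ D_i)`. -/
def pc (p : ℕ) (ω : ι → ℕ) (b : ℤ) (e : (i : ι) → Fin (D i + 1)) : ℤ :=
  ∏ i, tgt 1 (b * (p : ℤ) ^ ω i) (e i)

theorem mev_pc (hD : ∀ i, 0 < D i) (p : ℕ) (ω : ι → ℕ) (b : ℤ) (h : ι → ℂ × ℂ) :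
    mev (D := D) (pc p ω b) h =
      ∏ i, ((h i).2 ^ D i + b * ((p : ℂ) ^ ω i * (h i).1 ^ D i)) := by
  classical
  have h1 : ∀ i, ((h i).2 ^ D i + b * ((p : ℂ) ^ ω i * (h i).1 ^ D i)) =
      ∑ l : Fin (D i + 1), ((tgt 1 (b * (p : ℤ) ^ ω i) l : ℤ) : ℂ) *
        ((h i).1 ^ (l : ℕ) * (h i).2 ^ (D i - (l : ℕ))) := by
    intro i
    have hDi := hD i
    generalize hd : D i = m at hDi
    obtain ⟨k, rfl⟩ : ∃ k, m = k + 1 := ⟨m - 1, by omega⟩
    rw [Fin.sum_univ_succ, Fin.sum_univ_castSucc]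
    have h1 : ∀ l : Fin k, tgt 1 (b * (p : ℤ) ^ ω i) (l.castSucc.succ : Fin (k + 1 + 1)) = 0 := by
      intro l
      have hl := l.2
      simp only [tgt, Fin.val_succ, Fin.val_castSucc]
      rw [if_neg (by omega), if_neg (by omega)]
    rw [Finset.sum_eq_zero fun l _ => by rw [h1 l, Int.cast_zero, zero_mul]]
    simp only [tgt, Fin.val_zero, if_true, Fin.val_succ, Fin.val_last]
    rw [if_neg (by omega)]
    push_cast
    simp only [pow_zero, one_mul, Nat.sub_self, mul_one, zero_add]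
    ring
  rw [Finset.prod_congr rfl fun i _ => h1 i, Finset.prod_univ_sum, Fintype.piFinset_univ, mev]
  refine Finset.sum_congr rfl fun e _ => ?_
  rw [pc, Int.cast_prod, ← Finset.prod_mul_distrib]

/-- the size of the factor -/
noncomputable def sz (V : ValuationSubring ℂ) (p : ℕ) (ω D : ℕ) (h : ℂ × ℂ) : V.ValueGroup :=
  max (V.valuation h.2 ^ D) (V.valuation (p : ℂ) ^ ω * V.valuation h.1 ^ D)

section place

variable (V : ValuationSubring ℂ) {p : ℕ} (hp1 : V.valuation (p : ℂ) < 1) (hp0 : p ≠ 0)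

include hp0 in
theorem sz_pos {ω D : ℕ} {h : ℂ × ℂ} (hh : Nrm h) : 0 < sz V p ω D h := by
  have hpv : V.valuation (p : ℂ) ≠ 0 := (map_ne_zero _).2 (by exact_mod_cast hp0)
  rcases hh with hh | rfl
  · refine lt_of_lt_of_le ?_ (le_max_left _ _)
    rw [hh, map_one, one_pow]
    exact zero_lt_one
  · refine lt_of_lt_of_le ?_ (le_max_right _ _)
    rw [map_one, one_pow, mul_one]
    exact zero_lt_iff.2 (pow_ne_zero _ hpv)

include hp1 in
theorem sz_ge {ω D : ℕ} {h : ℂ × ℂ} (hh : Nrm h) (e : Fin (D + 1)) :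
    V.valuation (p : ℂ) ^ ω * V.valuation (h.1 ^ (e : ℕ) * h.2 ^ (D - (e : ℕ))) ≤
      sz V p ω D h := by
  have hpw : V.valuation (p : ℂ) ^ ω ≤ 1 := pow_le_one₀ zero_le hp1.le
  rw [map_mul, map_pow, map_pow]
  rcases hh with hh | rfl
  · rw [hh, map_one, one_pow, mul_one, sz, hh, map_one, one_pow]
    rcases le_total (V.valuation h.1) 1 with h1 | h1
    · refine le_trans ?_ (le_max_left _ _)
      exact mul_le_one₀ hpw zero_le (pow_le_one₀ zero_le h1)
    · refine le_trans ?_ (le_max_right _ _)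
      exact mul_le_mul_right (pow_le_pow_right₀ h1 (Nat.lt_succ_iff.1 e.2)) _
  · rw [sz, map_one, one_pow, one_mul, one_pow, mul_one, map_zero]
    refine le_trans ?_ (le_max_right _ _)
    exact mul_le_of_le_one_right' (pow_le_one₀ zero_le zero_le_one)

/-- the value of a factor -/
theorem factor_val {ω D : ℕ} (hD : 0 < D) {h : ℂ × ℂ} (hh : Nrm h) (b : ℤ)
    (hb : V.valuation (b : ℂ) = 1)
    (hbr : ¬ (h.2 = 1 ∧ V.valuation h.1 ^ D * V.valuation (p : ℂ) ^ ω = 1)) :
    V.valuation (h.2 ^ D + b * ((p : ℂ) ^ ω * h.1 ^ D)) = sz V p ω D h := by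
  have hv : V.valuation ((b : ℂ) * ((p : ℂ) ^ ω * h.1 ^ D)) =
      V.valuation (p : ℂ) ^ ω * V.valuation h.1 ^ D := by
    rw [map_mul, hb, one_mul, map_mul, map_pow, map_pow]
  rcases hh with hh | rfl
  · rw [hh, one_pow, sz, hh, map_one, one_pow]
    rcases lt_trichotomy (V.valuation (p : ℂ) ^ ω * V.valuation h.1 ^ D) 1 with h1 | h1 | h1
    · rw [max_eq_left h1.le, Valuation.map_add_eq_of_lt_left, map_one]
      rw [hv, map_one]
      exact h1
    · exact absurd ⟨hh, by rw [mul_comm]; exact h1⟩ hbr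
    · rw [max_eq_right h1.le, add_comm, Valuation.map_add_eq_of_lt_left, hv]
      rw [hv, map_one]
      exact h1
  · rw [zero_pow hD.ne', zero_add, hv, sz, map_zero, zero_pow hD.ne', max_eq_right zero_le]

/-- a factor is not small for two values of `b` -/
theorem factor_two {ω D : ℕ} {h : ℂ × ℂ} (b b' : ℤ)
    (hbb : V.valuation ((b - b' : ℤ) : ℂ) = 1)
    (hbr : h.2 = 1 ∧ V.valuation h.1 ^ D * V.valuation (p : ℂ) ^ ω = 1)
    (hb : V.valuation (b : ℂ) = 1) (hb' : V.valuation (b' : ℂ) = 1)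
    (h1 : V.valuation (h.2 ^ D + b * ((p : ℂ) ^ ω * h.1 ^ D)) ≠ sz V p ω D h)
    (h2 : V.valuation (h.2 ^ D + b' * ((p : ℂ) ^ ω * h.1 ^ D)) ≠ sz V p ω D h) : False := by
  obtain ⟨hh, hbr⟩ := hbr
  have ht : V.valuation ((p : ℂ) ^ ω * h.1 ^ D) = 1 := by
    rw [map_mul, map_pow, map_pow, mul_comm]
    exact hbr
  have hsz : sz V p ω D h = 1 := by
    rw [sz, hh, map_one, one_pow, mul_comm (V.valuation (p : ℂ) ^ ω), hbr, max_self]
  rw [hsz, hh, one_pow] at h1 h2
  set t : ℂ := (p : ℂ) ^ ω * h.1 ^ D with htd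
  have hle : ∀ a : ℤ, V.valuation (a : ℂ) = 1 → V.valuation (1 + (a : ℂ) * t) ≤ 1 := by
    intro a ha
    refine (Valuation.map_add _ _ _).trans (max_le (by rw [map_one]) ?_)
    rw [map_mul, ha, ht, one_mul]
  have h3 := lt_of_le_of_ne (hle b hb) h1
  have h4 := lt_of_le_of_ne (hle b' hb') h2
  have h5 : V.valuation (((b - b' : ℤ) : ℂ) * t) < 1 := by
    have e : ((b - b' : ℤ) : ℂ) * t = (1 + (b : ℂ) * t) - (1 + (b' : ℂ) * t) := by
      push_cast
      ring
    rw [e]
    exact lt_of_le_of_lt (Valuation.map_sub _ _ _) (max_lt h3 h4)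
  rw [map_mul, hbb, ht, one_mul] at h5
  exact lt_irrefl _ h5

end place

/-- The value of the multihomogenization of `f`. -/
noncomputable def homV {κ : Type} [Fintype κ] (N M : κ → ℂ) (f : MvPolynomial κ ℂ) : ℂ :=
  ∑ k ∈ f.support, f.coeff k * ∏ i, (N i ^ (k i) * M i ^ (f.degreeOf i - k i))

theorem homV_eq {κ : Type} [Fintype κ] (N M : κ → ℂ) (f : MvPolynomial κ ℂ)
    (hd : ∀ i, f.degreeOf i ≠ 0 → M i ≠ 0) :
    homV N M f = (∏ i, M i ^ f.degreeOf i) * eval (fun i => N i / M i) f := by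
  classical
  rw [homV, eval_eq', Finset.mul_sum]
  refine Finset.sum_congr rfl fun k hk => ?_
  rw [mul_left_comm]
  congr 1
  rw [← Finset.prod_mul_distrib]
  refine Finset.prod_congr rfl fun i _ => ?_
  have hki : k i ≤ f.degreeOf i := monomial_le_degreeOf i hk
  by_cases h0 : f.degreeOf i = 0
  · have h1 : k i = 0 := by omega
    rw [h0, h1]
    simp
  · have h1 := hd i h0
    rw [div_pow, ← mul_div_assoc, eq_div_iff (pow_ne_zero _ h1), mul_assoc, ← pow_add,
      Nat.sub_add_cancel hki, mul_comm]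

/-- Congruences for the components of the map. -/
def LCh {m : ℕ} (p : ℕ) (ω : ι → ℕ) (α : Fin m → ℤ)
    (c : Fin m × Fin 2 × ((i : ι) → Fin (D i + 1)) → ℤ) : Prop :=
  ∀ (j : Fin m) (e : (i : ι) → Fin (D i + 1)),
    (p : ℤ) ^ ((∑ i, ω i) + 1) ∣ c (j, 0, e) - α j * pc p ω ((j : ℕ) + 1) e ∧
    (p : ℤ) ^ ((∑ i, ω i) + 1) ∣ c (j, 1, e) - pc p ω ((j : ℕ) + 1) e

/-- One place: at least `m - d` coordinates are typical. -/
theorem card_br (hD : ∀ i, 0 < D i) {m d : ℕ} (V : ValuationSubring ℂ) {p : ℕ} (hp : p.Prime)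
    (hpm : m < p) (hp1 : V.valuation (p : ℂ) < 1) (ω : ι → ℕ)
    (f : ∀ J : Finset (Fin m), MvPolynomial J ℂ) (α : Fin m → ℤ)
    (hf : ∀ J : Finset (Fin m), J.card = d + 1 → ∀ l, V.valuation ((f J).coeff l) ≤ 1)
    (hcor : ∀ J : Finset (Fin m), J.card = d + 1 → V.valuation
      (eval (fun j : J => ((α j : ℤ) : ℂ)) (f J)) = 1)
    (c : Fin m × Fin 2 × ((i : ι) → Fin (D i + 1)) → ℤ) (hc : LCh p ω α c)
    (h : ι → ℂ × ℂ) (hh : ∀ i, Nrm (h i))
    (hz : ∀ J : Finset (Fin m), J.card = d + 1 →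
      homV (fun j => mev (fun e => c (j, 0, e)) h) (fun j => mev (fun e => c (j, 1, e)) h)
        (rename (Subtype.val : J → Fin m) (f J)) = 0)
    (Br : Finset ι)
    (hBr : ∀ i, i ∉ Br → ¬ ((h i).2 = 1 ∧
      V.valuation (h i).1 ^ D i * V.valuation (p : ℂ) ^ ω i = 1)) :
    m ≤ Br.card + d := by
  classical
  by_contra hcon
  push Not at hcon
  set v := V.valuation with hv
  have hp0 := hp.ne_zero
  have hpv : v (p : ℂ) ≠ 0 := (map_ne_zero _).2 (by exact_mod_cast hp0)
  set S : ι → V.ValueGroup := fun i => sz V p (ω i) (D i) (h i) with hS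
  set Y : V.ValueGroup := ∏ i, S i with hY
  have hS0 : ∀ i, 0 < S i := fun i => sz_pos V hp0 (hh i)
  have hY0 : 0 < Y := by
    rw [zero_lt_iff]
    exact Finset.prod_ne_zero_iff.2 fun i _ => (hS0 i).ne'
  let bj : Fin m → ℤ := fun j => (j : ℕ) + 1
  have hunit : ∀ b : ℤ, ¬ (p : ℤ) ∣ b → v (b : ℂ) = 1 := fun b hb =>
    val_int_unit V hp hp1 hb
  have hbj : ∀ j, v (bj j : ℂ) = 1 := by
    intro j
    refine hunit _ ?_
    intro h
    have h1 : ((p : ℕ) : ℤ) ≤ (j : ℕ) + 1 := Int.le_of_dvd (by positivity) h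
    have := j.2
    omega
  have hbjj : ∀ j j', j ≠ j' → v ((bj j - bj j' : ℤ) : ℂ) = 1 := by
    intro j j' hne
    refine hunit _ ?_
    intro h
    have hne' : (j : ℕ) ≠ j' := fun h => hne (Fin.ext h)
    have h1 := Int.natAbs_dvd_natAbs.2 h
    have h2 : (bj j - bj j').natAbs ≠ 0 := by
      simp only [bj]
      omega
    have h3 := Nat.le_of_dvd (Nat.pos_of_ne_zero h2) h1
    simp only [bj, Int.natAbs_natCast] at h3
    have := j.2
    have := j'.2
    omega
  let Pj : Fin m → ℂ := fun j => mev (D := D) (pc p ω (bj j)) h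
  have hPj : ∀ j, Pj j = ∏ i, ((h i).2 ^ D i + bj j * ((p : ℂ) ^ ω i * (h i).1 ^ D i)) :=
    fun j => mev_pc hD p ω (bj j) h
  -- the small components
  let Sm : Finset (Fin m) := Finset.univ.filter fun j => v (Pj j) ≠ Y
  have hSm : Sm.card ≤ Br.card := by
    have h1 : ∀ j : Sm, ∃ i : ι, i ∈ Br ∧
        v ((h i).2 ^ D i + bj j * ((p : ℂ) ^ ω i * (h i).1 ^ D i)) ≠ S i := by
      intro j
      by_contra hcon'
      push Not at hcon'
      apply (Finset.mem_filter.1 j.2).2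
      rw [hPj, map_prod]
      refine Finset.prod_congr rfl fun i _ => ?_
      by_contra h4
      by_cases hi : i ∈ Br
      · exact h4 (hcon' i hi)
      · exact h4 (factor_val V (hD i) (hh i) (bj j) (hbj j) (hBr i hi))
    choose g hg using h1
    have hinj : Function.Injective (fun j : Sm => (⟨g j, (hg j).1⟩ : Br)) := by
      intro j j' hjj
      by_contra hne
      have hjj' : g j = g j' := congrArg Subtype.val hjj
      have h2 := (hg j).2
      have h3 := (hg j').2
      rw [← hjj'] at h3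
      have h4 : (h (g j)).2 = 1 ∧ v (h (g j)).1 ^ D (g j) * v (p : ℂ) ^ ω (g j) = 1 := by
        by_contra h4
        exact h2 (factor_val V (hD _) (hh _) (bj j) (hbj j) h4)
      exact factor_two V (bj j) (bj j') (hbjj j j' fun h => hne (Subtype.ext h)) h4 (hbj j)
        (hbj j') h2 h3
    have h5 := Fintype.card_le_of_injective _ hinj
    simpa using h5
  have hlarge : d + 1 ≤ (Finset.univ.filter fun j => v (Pj j) = Y).card := by
    have := Finset.card_filter_add_card_filter_not (s := (Finset.univ : Finset (Fin m)))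
      (fun j => v (Pj j) = Y)
    rw [Finset.card_univ, Fintype.card_fin] at this
    have h2 : (Finset.univ.filter fun j : Fin m => ¬ v (Pj j) = Y).card ≤ Br.card := hSm
    omega
  obtain ⟨J, hJ, hJc⟩ := Finset.exists_subset_card_eq hlarge
  have hJv : ∀ j ∈ J, v (Pj j) = Y := fun j hj => (Finset.mem_filter.1 (hJ hj)).2
  -- the reductions
  have hdiff : ∀ (F : ((i : ι) → Fin (D i + 1)) → ℤ),
      (∀ e, (p : ℤ) ^ ((∑ i, ω i) + 1) ∣ F e) → v (mev F h) < Y := by
    intro F hF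
    refine Valuation.map_sum_lt _ hY0.ne' fun e _ => ?_
    obtain ⟨b, hb⟩ := hF e
    rw [hb]
    push_cast
    rw [map_mul, map_mul, map_pow, pow_succ, ← Finset.prod_pow_eq_pow_sum, map_prod]
    calc (∏ i, v (p : ℂ) ^ ω i) * v (p : ℂ) * v (b : ℂ) *
          ∏ i, v ((h i).1 ^ (e i : ℕ) * (h i).2 ^ (D i - (e i : ℕ)))
        = v (p : ℂ) * v (b : ℂ) * ∏ i, (v (p : ℂ) ^ ω i *
          v ((h i).1 ^ (e i : ℕ) * (h i).2 ^ (D i - (e i : ℕ)))) := by
          rw [Finset.prod_mul_distrib]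
          ac_rfl
      _ ≤ v (p : ℂ) * 1 * Y := by
          refine mul_le_mul' (mul_le_mul' le_rfl (int_le V b)) ?_
          exact Finset.prod_le_prod' fun i _ => sz_ge V hp1 (hh i) (e i)
      _ < 1 * Y := by
          rw [mul_one]
          exact mul_lt_mul_of_pos_right hp1 hY0
      _ = Y := one_mul _
  have hsub : ∀ (F G : ((i : ι) → Fin (D i + 1)) → ℤ) (a : ℤ),
      mev (fun e => F e - a * G e) h = mev F h - (a : ℂ) * mev G h := by
    intro F G a
    rw [mev, mev, mev, Finset.mul_sum, ← Finset.sum_sub_distrib]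
    refine Finset.sum_congr rfl fun e _ => ?_
    push_cast
    ring
  set Nz : Fin m → ℂ := fun j => mev (fun e => c (j, 0, e)) h with hNz
  set Mz : Fin m → ℂ := fun j => mev (fun e => c (j, 1, e)) h with hMz
  have hred : ∀ j ∈ J, Mz j ≠ 0 ∧ v (Nz j / Mz j - (α j : ℂ)) < 1 := by
    intro j hj
    have hP0 : Pj j ≠ 0 := by
      intro h0
      have := hJv j hj
      rw [h0, map_zero] at this
      exact hY0.ne this
    have h1 : v (Nz j - (α j : ℂ) * Pj j) < Y := by
      have := hdiff (fun e => c (j, 0, e) - α j * pc p ω (bj j) e) (fun e => (hc j e).1)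
      rwa [hsub] at this
    have h2 : v (Mz j - Pj j) < Y := by
      have := hdiff (fun e => c (j, 1, e) - 1 * pc p ω (bj j) e) (fun e => by
        rw [one_mul]; exact (hc j e).2)
      rwa [hsub, Int.cast_one, one_mul] at this
    have h3 : v (Nz j / Pj j - (α j : ℂ)) < 1 := by
      have h4 : Nz j / Pj j - (α j : ℂ) = (Nz j - (α j : ℂ) * Pj j) / Pj j := by field_simp
      rw [h4, map_div₀, hJv j hj]
      exact (div_lt_one₀ hY0).2 h1
    have h4 : v (Mz j / Pj j - 1) < 1 := by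
      have h5 : Mz j / Pj j - 1 = (Mz j - Pj j) / Pj j := by field_simp
      rw [h5, map_div₀, hJv j hj]
      exact (div_lt_one₀ hY0).2 h2
    obtain ⟨h5, h6⟩ := val_div_sub_lt V (Nz j / Pj j) (Mz j / Pj j) (α j : ℂ) (int_le V _) h3 h4
    rw [div_div_div_cancel_right₀ hP0] at h6
    refine ⟨?_, h6⟩
    intro h7
    rw [h7, zero_div] at h5
    exact h5 rfl
  have hdeg : ∀ i, (rename (Subtype.val : J → Fin m) (f J)).degreeOf i ≠ 0 → i ∈ J := by
    intro i hi
    by_contra hiJ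
    apply hi
    rw [← Nat.le_zero, degreeOf_le_iff]
    intro k hk
    obtain ⟨k', rfl, -⟩ := coeff_rename_ne_zero _ _ _ (mem_support_iff.1 hk)
    rw [Finsupp.mapDomain_of_notMem_range]
    rintro ⟨j, rfl⟩
    exact hiJ j.2
  have h1 := hz J hJc
  rw [homV_eq _ _ _ (fun i hi => (hred i (hdeg i hi)).1)] at h1
  have h2 := (mul_eq_zero.1 h1).resolve_left (Finset.prod_ne_zero_iff.2 fun i _ => by
    by_cases hi : (rename (Subtype.val : J → Fin m) (f J)).degreeOf i = 0
    · rw [hi, pow_zero]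
      exact one_ne_zero
    · exact pow_ne_zero _ (hred i (hdeg i hi)).1)
  rw [eval_rename] at h2
  have h3 := val_aeval_sub_lt V (f J) (fun l => hf J hJc l) (fun j : J => Nz j / Mz j)
    (fun j : J => ((α j : ℤ) : ℂ)) (fun j => (hred j j.2).2) (fun j => int_le V _)
  have h2' : aeval (fun j : J => Nz j / Mz j) (f J) = 0 := by
    rw [aeval_eq_eval]
    exact h2
  rw [h2', zero_sub, Valuation.map_neg, aeval_eq_eval, hcor J hJc] at h3
  exact lt_irrefl _ h3

end Pool.Agent.TH971.SP
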