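import Pool.Agent.TH971.SP.A4
import Pool.Agent.TH971.SP.B1

/-!
Zilber-Pink for pull-backs under rational maps in all coordinates to semiabelian varieties.
-/

set_option autoImplicit false

open MvPolynomial

namespace Pool.Agent.TH971.SP

open Pool.Agent.W282.ZP Pool.Agent.W466.EP Pool.Agent.TH971.RF

theorem one_place' {n : ℕ} {q : Fin n → ℕ} {k d : ℕ} (D : Ix q k → ℕ) (hD : ∀ i, 0 < D i)
    (e : ((i : Fin n) × Fin (q i)) → ℕ) (he : ∀ j, e j < D (Sum.inl j))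
    (hdis : ∀ (i : Fin n) (l l' : Fin (q i)), l ≠ l' →
      e ⟨i, l⟩ * D (Sum.inl ⟨i, l'⟩) ≠ e ⟨i, l'⟩ * D (Sum.inl ⟨i, l⟩))
    (g : Fin k → ℕ) (hg : ∀ w, 0 < g w)
    {κ : Type} {τ : κ → ℂ} {p : ℕ} (hp : p.Prime) (V : ValuationSubring ℂ) (hV : Good τ p V)
    (A B : Fin n → ℂ) (hA : ∀ i, V.valuation (A i) ≤ 1) (hB : ∀ i, V.valuation (B i) ≤ 1)
    (P : ∀ i, Fin (q i) → (crv (A i) (B i)).Point) (u : Fin k → ℂ)
    (At : Finset (Ix q k)) (hmemAt : ∀ j, j ∈ At ↔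
      ¬ ((hco P u j).2 = 1 ∧ V.valuation (hco P u j).1 ^ D j *
        V.valuation (p : ℂ) ^ Ex D e g j = 1)) (hAt : At.card ≤ d)
    (T : Finset (Ix q k))
    (hT1 : ∀ j, Sum.inl j ∈ T →
      V.valuation (xx (P j.1 j.2)) ^ Mo D * V.valuation (p : ℂ) ^ (Mo D + ((j.2 : ℕ) + 1)) = 1)
    (hT2 : ∀ w, Sum.inr w ∈ T → V.valuation (u w) ^ 2 * V.valuation (p : ℂ) ^ g w = 1)
    (E : ∀ i, EndRing (A i) (B i)) (Λ : ∀ i, Submodule (E i).O (Fin (q i) → (E i).O))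
    (hΛ : ∀ i, ∀ a ∈ Λ i, ∃ t : ℕ, 0 < t ∧ t • ∑ l, (E i).act (a l) (P i l) = 0)
    (M₂ : Submodule ℤ (Fin k → ℤ)) (hM₂ : ∀ a ∈ M₂, ∃ t : ℕ, 0 < t ∧ (∏ w, u w ^ a w) ^ t = 1)
    (hcon : d < T.card + ∑ i, Module.finrank (E i).O (Λ i) + Module.finrank ℤ M₂) :
    ∃ U : Finset (Fin k), U.card < Module.finrank ℤ M₂ ∧ ∀ a ∈ M₂, (∀ w ∈ U, a w = 0) →
      ∑ w, (a w * if (Sum.inr w : Ix q k) ∈ T then 1 else 2) * (g w : ℤ) = 0 := by
  classical
  set v := V.valuation with hv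
  have hp1 : v (p : ℂ) < 1 := hV.lt
  have hp0 : (p : ℂ) ≠ 0 := by exact_mod_cast hp.ne_zero
  have hpv0 : v (p : ℂ) ≠ 0 := (map_ne_zero v).2 hp0
  have hpos : 0 < v (p : ℂ) := zero_lt_iff.2 hpv0
  -- numbers
  set Rr : ℕ := ∏ j, D (Sum.inl j) with hRr
  set Qf : ℕ := ∑ i, q i + 1 with hQf
  have hRr0 : 0 < Rr := Finset.prod_pos fun j _ => hD _
  have hMo : Mo D = Qf * Rr := rfl
  have hMo0 : 0 < Mo D := Nat.mul_pos (Nat.succ_pos _) hRr0
  have hdiv : ∀ j, D (Sum.inl j) * (Rr / D (Sum.inl j)) = Rr := fun j =>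
    Nat.mul_div_cancel' (Finset.dvd_prod_of_mem (fun j => D (Sum.inl j)) (Finset.mem_univ j))
  have hdiv0 : ∀ j, 0 < Rr / D (Sum.inl j) := fun j => Nat.pos_of_ne_zero fun h0 => by
    have := hdiv j
    rw [h0, mul_zero] at this
    omega
  have hlQ : ∀ j : (i : Fin n) × Fin (q i), (j.2 : ℕ) + 1 < Qf := by
    intro j
    have h1 : q j.1 ≤ ∑ i, q i := Finset.single_le_sum (f := q) (fun _ _ => Nat.zero_le _)
      (Finset.mem_univ j.1)
    have h2 := j.2.2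
    omega
  have hTA : T ⊆ At := by
    rintro (j | w) hj
    · refine (hmemAt _).2 ?_
      rintro ⟨h1, h2⟩
      have h3 : hco P u (Sum.inl j) = (xx (P j.1 j.2), 1) := by
        by_cases h : P j.1 j.2 = 0
        · rw [show hco P u (Sum.inl j) = (1, 0) by simp [hco, h]] at h1
          exact absurd h1 zero_ne_one
        · simp [hco, h]
      rw [h3] at h2
      have h4 := hT1 j hj
      have h5 : v (p : ℂ) ^ ((e j + D (Sum.inl j)) * Mo D) =
          v (p : ℂ) ^ ((Mo D + ((j.2 : ℕ) + 1)) * D (Sum.inl j)) := by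
        have h6 : (v (xx (P j.1 j.2)) ^ D (Sum.inl j) * v (p : ℂ) ^ (e j + D (Sum.inl j))) ^ Mo D =
            (v (xx (P j.1 j.2)) ^ Mo D * v (p : ℂ) ^ (Mo D + ((j.2 : ℕ) + 1))) ^ D (Sum.inl j) := by
          rw [h4, one_pow]
          exact (congrArg (· ^ Mo D) h2).trans (one_pow _)
        rw [mul_pow, mul_pow, ← pow_mul, ← pow_mul, ← pow_mul, ← pow_mul,
          mul_comm (Mo D) (D (Sum.inl j))] at h6
        refine mul_left_cancel₀ (pow_ne_zero _ ?_) h6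
        intro h0
        rw [h0, zero_pow hMo0.ne', zero_mul] at h4
        exact zero_ne_one h4
      have h6 := pow_inj_gt hpos hp1 h5
      have h7 : e j * Mo D = ((j.2 : ℕ) + 1) * D (Sum.inl j) := by
        have : (e j + D (Sum.inl j)) * Mo D = e j * Mo D + Mo D * D (Sum.inl j) := by ring
        rw [this, add_mul] at h6
        omega
      have h8 : D (Sum.inl j) * (e j * Qf * (Rr / D (Sum.inl j))) =
          D (Sum.inl j) * ((j.2 : ℕ) + 1) := by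
        rw [mul_comm (D (Sum.inl j)) ((j.2 : ℕ) + 1), ← h7, hMo]
        calc D (Sum.inl j) * (e j * Qf * (Rr / D (Sum.inl j)))
            = e j * (Qf * (D (Sum.inl j) * (Rr / D (Sum.inl j)))) := by ring
          _ = e j * (Qf * Rr) := by rw [hdiv]
      have h9 := Nat.eq_of_mul_eq_mul_left (hD (Sum.inl j)) h8
      rcases Nat.eq_zero_or_pos (e j) with h0 | h0
      · rw [h0, zero_mul, zero_mul] at h9
        omega
      · have h10 : Qf ≤ e j * Qf * (Rr / D (Sum.inl j)) := by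
          calc Qf ≤ e j * Qf := Nat.le_mul_of_pos_left _ h0
            _ ≤ _ := Nat.le_mul_of_pos_right _ (hdiv0 j)
        have h11 := hlQ j
        omega
    · refine (hmemAt _).2 ?_
      rintro ⟨-, h2⟩
      have h4 := hT2 w hj
      have h2' : v (u w) ^ D (Sum.inr w) * v (p : ℂ) ^ (g w * D (Sum.inr w)) = 1 := h2
      have h6 : (v (u w) ^ D (Sum.inr w) * v (p : ℂ) ^ (g w * D (Sum.inr w))) ^ 2 =
            (v (u w) ^ 2 * v (p : ℂ) ^ g w) ^ D (Sum.inr w) := by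
        rw [h4, h2', one_pow, one_pow]
      rw [mul_pow, mul_pow, ← pow_mul, ← pow_mul, ← pow_mul, ← pow_mul,
          mul_comm 2 (D (Sum.inr w))] at h6
      have h7 := mul_left_cancel₀ (pow_ne_zero _ (fun h0 => by
        rw [h0, zero_pow two_ne_zero, zero_mul] at h4
        exact zero_ne_one h4)) h6
      have h8 := pow_inj_gt hpos hp1 h7
      have h9 : 0 < g w * D (Sum.inr w) := Nat.mul_pos (hg w) (hD _)
      omega
  -- the elliptic part
  let F : ∀ i, Finset (Fin (q i)) := fun i =>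
    Finset.univ.filter fun l => (Sum.inl ⟨i, l⟩ : Ix q k) ∈ At \ T
  have hF : ∀ i, Module.finrank (E i).O (Λ i) ≤ (F i).card := by
    intro i
    by_contra hlt
    push Not at hlt
    obtain ⟨a, haΛ, ha0, haF⟩ := exists_relO (Λ i) (F i) hlt
    obtain ⟨t, ht, hrel⟩ := hΛ i a haΛ
    obtain ⟨π, hπ⟩ := IsAlgClosed.exists_pow_nat_eq (p : ℂ) hMo0
    have hσR : v (p : ℂ) = v π ^ Mo D := by rw [← hπ, map_pow]
    have hσ0 : 0 < v π := by
      refine zero_lt_iff.2 fun h0 => ?_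
      rw [h0, zero_pow hMo0.ne'] at hσR
      exact hpv0 hσR
    let lv : Fin (q i) → ℕ := fun l => if (Sum.inl ⟨i, l⟩ : Ix q k) ∈ T
      then Mo D + ((l : ℕ) + 1)
      else Qf * ((e ⟨i, l⟩ + D (Sum.inl ⟨i, l⟩)) * (Rr / D (Sum.inl ⟨i, l⟩)))
    have hlv : ∀ l, (e ⟨i, l⟩ + D (Sum.inl ⟨i, l⟩)) * (Rr / D (Sum.inl ⟨i, l⟩)) =
        e ⟨i, l⟩ * (Rr / D (Sum.inl ⟨i, l⟩)) + Rr := by
      intro l
      rw [add_mul, hdiv]
    have hsm : ∀ l, e ⟨i, l⟩ * (Rr / D (Sum.inl ⟨i, l⟩)) < Rr := by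
      intro l
      calc e ⟨i, l⟩ * (Rr / D (Sum.inl ⟨i, l⟩)) < D (Sum.inl ⟨i, l⟩) * (Rr / D (Sum.inl ⟨i, l⟩)) :=
            Nat.mul_lt_mul_of_pos_right (he _) (hdiv0 _)
        _ = Rr := hdiv _
    have hval : ∀ l, l ∉ F i → v (xx (P i l)) * v π ^ lv l = 1 := by
      intro l hl
      by_cases hlT : (Sum.inl ⟨i, l⟩ : Ix q k) ∈ T
      · have h1 := hT1 ⟨i, l⟩ hlT
        have h2 : lv l = Mo D + ((l : ℕ) + 1) := if_pos hlT
        refine eq_one_of_pow hMo0.ne' ?_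
        rw [h2, mul_pow, ← pow_mul, mul_comm (Mo D + ((l : ℕ) + 1)) (Mo D), pow_mul, ← hσR]
        exact h1
      · have h1 : (Sum.inl ⟨i, l⟩ : Ix q k) ∉ At := by
          intro h3
          exact hl (Finset.mem_filter.2 ⟨Finset.mem_univ _, Finset.mem_sdiff.2 ⟨h3, hlT⟩⟩)
        have h2 : lv l = Qf * ((e ⟨i, l⟩ + D (Sum.inl ⟨i, l⟩)) * (Rr / D (Sum.inl ⟨i, l⟩))) :=
          if_neg hlT
        have h3 : (hco P u (Sum.inl ⟨i, l⟩)).2 = 1 ∧ v (hco P u (Sum.inl ⟨i, l⟩)).1 ^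
            D (Sum.inl ⟨i, l⟩) * v (p : ℂ) ^ Ex D e g (Sum.inl ⟨i, l⟩) = 1 := by
          by_contra h4
          exact h1 ((hmemAt _).2 h4)
        obtain ⟨h4, h5⟩ := h3
        have h6 : hco P u (Sum.inl ⟨i, l⟩) = (xx (P i l), 1) := by
          by_cases h : P i l = 0
          · rw [show hco P u (Sum.inl ⟨i, l⟩) = (1, 0) by simp [hco, h]] at h4
            exact absurd h4 zero_ne_one
          · simp [hco, h]
        rw [h6] at h5
        have h5' : v (xx (P i l)) ^ D (Sum.inl ⟨i, l⟩) *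
            v (p : ℂ) ^ (e ⟨i, l⟩ + D (Sum.inl ⟨i, l⟩)) = 1 := h5
        refine eq_one_of_pow (hD (Sum.inl ⟨i, l⟩)).ne' ?_
        rw [h2, mul_pow, ← h5', hσR, ← pow_mul, ← pow_mul]
        congr 2
        rw [hMo]
        calc Qf * ((e ⟨i, l⟩ + D (Sum.inl ⟨i, l⟩)) * (Rr / D (Sum.inl ⟨i, l⟩))) * D (Sum.inl ⟨i, l⟩)
            = Qf * ((D (Sum.inl ⟨i, l⟩) * (Rr / D (Sum.inl ⟨i, l⟩))) *
              (e ⟨i, l⟩ + D (Sum.inl ⟨i, l⟩))) := by ring
          _ = Qf * Rr * (e ⟨i, l⟩ + D (Sum.inl ⟨i, l⟩)) := by rw [hdiv, mul_assoc]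
    have hz1 : (1 : ℂ) ≠ 0 := one_ne_zero
    refine rel_placeE hp hV.hp hV.arch hz1 (by rw [one_pow, one_mul]; exact hA i)
      (by rw [one_pow, one_mul]; exact hB i) (E i) hσR hMo0 hσ0 (P i)
      (Finset.univ.filter fun l => l ∉ F i) lv ?_ ?_ ?_ a ha0 ?_ ht hrel
    · intro l hl
      rw [xx_scl, one_pow, one_mul]
      exact hval l (Finset.mem_filter.1 hl).2
    · intro l hl
      by_cases hlT : (Sum.inl ⟨i, l⟩ : Ix q k) ∈ T
      · have h2 : lv l = Mo D + ((l : ℕ) + 1) := if_pos hlT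
        omega
      · have h2 : lv l = Qf * ((e ⟨i, l⟩ + D (Sum.inl ⟨i, l⟩)) * (Rr / D (Sum.inl ⟨i, l⟩))) :=
          if_neg hlT
        have h3 : Mo D ≤ lv l := by
          rw [h2, hlv, hMo]
          exact Nat.mul_le_mul_left _ (Nat.le_add_left _ _)
        omega
    · intro l hl l' hl' hne hmod
      have hQM : Qf ∣ Mo D := Dvd.intro _ rfl
      by_cases hlT : (Sum.inl ⟨i, l⟩ : Ix q k) ∈ T
      · have h2 : lv l = Mo D + ((l : ℕ) + 1) := if_pos hlT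
        by_cases hlT' : (Sum.inl ⟨i, l'⟩ : Ix q k) ∈ T
        · have h2' : lv l' = Mo D + ((l' : ℕ) + 1) := if_pos hlT'
          rw [h2, h2'] at hmod
          have h3 : ((l : ℕ) + 1) ≡ ((l' : ℕ) + 1) [MOD Mo D] := Nat.ModEq.add_left_cancel' _ hmod
          have h4 := hlQ ⟨i, l⟩
          have h5 := hlQ ⟨i, l'⟩
          have h6 : Qf ≤ Mo D := Nat.le_mul_of_pos_right _ hRr0
          have h7 := Nat.ModEq.eq_of_lt_of_lt h3 (lt_of_lt_of_le h4 h6) (lt_of_lt_of_le h5 h6)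
          exact hne (Fin.ext (by omega))
        · have h2' : lv l' = Qf * ((e ⟨i, l'⟩ + D (Sum.inl ⟨i, l'⟩)) * (Rr / D (Sum.inl ⟨i, l'⟩))) :=
            if_neg hlT'
          rw [h2, h2'] at hmod
          have h3 := hmod.of_dvd hQM
          have h4 : ((l : ℕ) + 1) ≡ 0 [MOD Qf] := by
            have h5 : Mo D + ((l : ℕ) + 1) ≡ 0 [MOD Qf] :=
              h3.trans ((Nat.modEq_zero_iff_dvd).2 (Dvd.intro _ rfl))
            have h6 : Mo D ≡ 0 [MOD Qf] := (Nat.modEq_zero_iff_dvd).2 hQM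
            have h7 : Mo D + ((l : ℕ) + 1) ≡ 0 + ((l : ℕ) + 1) [MOD Qf] := h6.add_right _
            rw [zero_add] at h7
            exact h7.symm.trans h5
          have h5 := Nat.le_of_dvd (Nat.succ_pos _) ((Nat.modEq_zero_iff_dvd).1 h4)
          have h6 : (l : ℕ) + 1 < Qf := hlQ ⟨i, l⟩
          omega
      · have h2 : lv l = Qf * ((e ⟨i, l⟩ + D (Sum.inl ⟨i, l⟩)) * (Rr / D (Sum.inl ⟨i, l⟩))) :=
          if_neg hlT
        by_cases hlT' : (Sum.inl ⟨i, l'⟩ : Ix q k) ∈ T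
        · have h2' : lv l' = Mo D + ((l' : ℕ) + 1) := if_pos hlT'
          rw [h2, h2'] at hmod
          have h3 := hmod.of_dvd hQM
          have h4 : ((l' : ℕ) + 1) ≡ 0 [MOD Qf] := by
            have h5 : Mo D + ((l' : ℕ) + 1) ≡ 0 [MOD Qf] :=
              h3.symm.trans ((Nat.modEq_zero_iff_dvd).2 (Dvd.intro _ rfl))
            have h6 : Mo D ≡ 0 [MOD Qf] := (Nat.modEq_zero_iff_dvd).2 hQM
            have h7 : Mo D + ((l' : ℕ) + 1) ≡ 0 + ((l' : ℕ) + 1) [MOD Qf] := h6.add_right _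
            rw [zero_add] at h7
            exact h7.symm.trans h5
          have h5 := Nat.le_of_dvd (Nat.succ_pos _) ((Nat.modEq_zero_iff_dvd).1 h4)
          have h6 : (l' : ℕ) + 1 < Qf := hlQ ⟨i, l'⟩
          omega
        · have h2' : lv l' = Qf * ((e ⟨i, l'⟩ + D (Sum.inl ⟨i, l'⟩)) * (Rr / D (Sum.inl ⟨i, l'⟩))) :=
            if_neg hlT'
          rw [h2, h2', hMo, hlv, hlv] at hmod
          have h3 := Nat.ModEq.mul_left_cancel' (Nat.succ_ne_zero _) hmod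
          have h4 := Nat.ModEq.add_right_cancel' _ h3
          have h5 := Nat.ModEq.eq_of_lt_of_lt h4 (hsm l) (hsm l')
          apply hdis i l l' hne
          have h6 : Rr * (e ⟨i, l⟩ * D (Sum.inl ⟨i, l'⟩)) = Rr * (e ⟨i, l'⟩ * D (Sum.inl ⟨i, l⟩)) := by
            calc Rr * (e ⟨i, l⟩ * D (Sum.inl ⟨i, l'⟩))
                = (D (Sum.inl ⟨i, l⟩) * (Rr / D (Sum.inl ⟨i, l⟩))) *
                  (e ⟨i, l⟩ * D (Sum.inl ⟨i, l'⟩)) := by rw [hdiv]
              _ = (e ⟨i, l⟩ * (Rr / D (Sum.inl ⟨i, l⟩))) *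
                  (D (Sum.inl ⟨i, l⟩) * D (Sum.inl ⟨i, l'⟩)) := by ring
              _ = (e ⟨i, l'⟩ * (Rr / D (Sum.inl ⟨i, l'⟩))) *
                  (D (Sum.inl ⟨i, l⟩) * D (Sum.inl ⟨i, l'⟩)) := by rw [h5]
              _ = (D (Sum.inl ⟨i, l'⟩) * (Rr / D (Sum.inl ⟨i, l'⟩))) *
                  (e ⟨i, l'⟩ * D (Sum.inl ⟨i, l⟩)) := by ring
              _ = Rr * (e ⟨i, l'⟩ * D (Sum.inl ⟨i, l⟩)) := by rw [hdiv]
          exact Nat.eq_of_mul_eq_mul_left hRr0 h6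
    · intro l hl
      refine haF l ?_
      by_contra h3
      exact hl (Finset.mem_filter.2 ⟨Finset.mem_univ _, h3⟩)
  -- the torus part
  let U : Finset (Fin k) := Finset.univ.filter fun w => (Sum.inr w : Ix q k) ∈ At \ T
  have hcount : ∑ i, (F i).card + U.card + T.card ≤ d := by
    have h1 : ((Finset.univ.sigma F).disjSum U).card ≤ (At \ T).card := by
      refine Finset.card_le_card ?_
      rintro (⟨i, l⟩ | w) hj
      · rw [Finset.inl_mem_disjSum, Finset.mem_sigma] at hj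
        exact (Finset.mem_filter.1 hj.2).2
      · rw [Finset.inr_mem_disjSum] at hj
        exact (Finset.mem_filter.1 hj).2
    rw [Finset.card_disjSum, Finset.card_sigma, Finset.card_sdiff_of_subset hTA] at h1
    have h2 := Finset.card_le_card hTA
    omega
  have hsumF : ∑ i, Module.finrank (E i).O (Λ i) ≤ ∑ i, (F i).card :=
    Finset.sum_le_sum fun i _ => hF i
  refine ⟨U, by omega, fun a ha haU => ?_⟩
  obtain ⟨t, ht, h3⟩ := hM₂ a ha
  obtain ⟨π, hπ⟩ := IsAlgClosed.exists_pow_nat_eq (p : ℂ) two_pos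
  have hσR : v (p : ℂ) = v π ^ 2 := by rw [← hπ, map_pow]
  have hσ0 : 0 < v π := by
    refine zero_lt_iff.2 fun h0 => ?_
    rw [h0, zero_pow two_ne_zero] at hσR
    exact hpv0 hσR
  have hσ1 : v π < 1 := by
    by_contra h4
    push Not at h4
    have h5 := one_le_pow₀ h4 (n := 2)
    rw [← hσR] at h5
    exact absurd hp1 (not_lt.2 h5)
  have h6 := tor_simple (v := v) hσ0 hσ1 u Uᶜ
    (fun w => (if (Sum.inr w : Ix q k) ∈ T then 1 else 2) * g w) ?_ a ?_ ?_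
  · rw [← h6]
    refine Finset.sum_congr rfl fun w _ => ?_
    push_cast
    by_cases hwT : (Sum.inr w : Ix q k) ∈ T
    · simp [hwT]
    · simp [hwT]
      ring
  · intro w hw
    rw [Finset.mem_compl] at hw
    by_cases hwT : (Sum.inr w : Ix q k) ∈ T
    · rw [if_pos hwT, one_mul]
      refine eq_one_of_pow two_ne_zero ?_
      rw [mul_pow, ← pow_mul, mul_comm (g w) 2, pow_mul, ← hσR]
      exact hT2 w hwT
    · rw [if_neg hwT]
      have h1 : (Sum.inr w : Ix q k) ∉ At := by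
        intro h3
        exact hw (Finset.mem_filter.2 ⟨Finset.mem_univ _, Finset.mem_sdiff.2 ⟨h3, hwT⟩⟩)
      have h3 : (hco P u (Sum.inr w)).2 = 1 ∧ v (hco P u (Sum.inr w)).1 ^
          D (Sum.inr w) * v (p : ℂ) ^ Ex D e g (Sum.inr w) = 1 := by
        by_contra h4
        exact h1 ((hmemAt _).2 h4)
      have h5 : v (u w) ^ D (Sum.inr w) * v (p : ℂ) ^ (g w * D (Sum.inr w)) = 1 := h3.2
      refine eq_one_of_pow (hD (Sum.inr w)).ne' ?_
      rw [mul_pow, pow_mul (v π) 2 (g w), ← hσR, ← pow_mul]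
      exact h5
  · intro w hw
    rw [Finset.mem_compl, not_not] at hw
    exact haU w hw
  · have h4 := congrArg v h3
    rw [map_pow, map_one] at h4
    exact eq_one_of_pow ht.ne' h4

end Pool.Agent.TH971.SP
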